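import Pool.Agent.H576R3.PR.Press
import Pool.Agent.H576R3.PR.Setup
import Pool.Agent.H576R3.PR.Final

/-!
Not every function satisfying the stated conditions is the pressure function of the geometric
potential of a smooth area-preserving Anosov diffeomorphism of the two-torus.

The function is `p t = h / R 0 * (R t - R 1 * t)` with `R t = log (1 + exp (-t - exp t))`. It
approaches its asymptote at `+∞` faster than any exponential, while for a smooth area-preserving
Anosov diffeomorphism the distance to the asymptote is at least exponentially small.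
-/

set_option autoImplicit false

open scoped Topology
open Set Filter MeasureTheory

namespace Pool.Agent.Results.MP_80da8f_an.NotPressureFunction

open Pool.Agent.H576R3 Pool.Agent.H576R3.PR

lemma isHyperbolicMatrix_cat :
    ∃ l : ℂ, IsHyperbolicMatrix !![2, 1; 1, 1] l := by
  have hch : ∀ z : ℂ, ((!![2, 1; 1, 1] : Matrix (Fin 2) (Fin 2) ℤ).map
      fun n => (n : ℂ)).charpoly.IsRoot z ↔ z ^ 2 - 3 * z + 1 = 0 := by
    intro z
    rw [Matrix.charpoly_fin_two, Polynomial.IsRoot.def]
    simp [Matrix.trace, Matrix.det_fin_two, Fin.sum_univ_two]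
    norm_num
  refine ⟨((3 + Real.sqrt 5) / 2 : ℝ), ?_, ?_, ?_, ?_⟩
  · rw [Matrix.isUnit_iff_isUnit_det]
    simp [Matrix.det_fin_two]
  · intro z hz h1
    rw [hch] at hz
    have h2 : Complex.normSq z = 1 := by
      rw [Complex.normSq_eq_norm_sq, h1]
      norm_num
    rw [Complex.normSq_apply] at h2
    have hre := congrArg Complex.re hz
    have him := congrArg Complex.im hz
    simp only [pow_two, Complex.add_re, Complex.sub_re, Complex.mul_re, Complex.one_re,
      Complex.zero_re, Complex.add_im, Complex.sub_im, Complex.mul_im, Complex.one_im,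
      Complex.zero_im, Complex.re_ofNat, Complex.im_ofNat] at hre him
    have h3 : z.im * (2 * z.re - 3) = 0 := by linarith
    rcases mul_eq_zero.1 h3 with h | h
    · rw [h] at h2 hre
      nlinarith
    · nlinarith [sq_nonneg z.im]
  · rw [hch]
    have h5 : Real.sqrt 5 ^ 2 = 5 := Real.sq_sqrt (by norm_num)
    have h6 : ((3 + Real.sqrt 5) / 2 : ℝ) ^ 2 - 3 * ((3 + Real.sqrt 5) / 2 : ℝ) + 1 = 0 := by
      nlinarith
    exact_mod_cast h6
  · rw [Complex.norm_real, Real.norm_eq_abs, abs_of_nonneg (by positivity)]
    have := Real.sqrt_nonneg 5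
    linarith

lemma logExpansion_periodic {L : Matrix (Fin 2) (Fin 2) ℤ} {f : Torus ≃ₜ Torus}
    {F : Plane → Plane} {P : Plane → Plane →L[ℝ] Plane} (H : IsAreaPreservingAnosov L f F P)
    (x : Plane) (v : Fin 2 → ℤ) : logExpansion F P (x + lat v) = logExpansion F P x := by
  have h1 : P (x + lat v) = P x := H.periodic x v
  rw [logExpansion_def, logExpansion_def, h1, fderiv_periodic H.homotopic]

theorem not_pressure {L : Matrix (Fin 2) (Fin 2) ℤ} {h : ℝ} (hh : 0 < h) {f : Torus ≃ₜ Torus}
    {F : Plane → Plane} {P : Plane → Plane →L[ℝ] Plane} (H : IsAreaPreservingAnosov L f F P) :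
    ¬ ∀ t : ℝ, pressure f (geometricPotential F P t) = ((cand h t : ℝ) : EReal) := by
  obtain ⟨m, K, hm, hG⟩ := exists_isHyp H
  set ψ : Torus → ℝ := fun y => logExpansion F P (rep y) with hψ
  have hψp : ∀ x, ψ (proj x) = logExpansion F P x := by
    intro x
    obtain ⟨v, hv⟩ := rep_proj x
    rw [hψ]
    simp only
    rw [hv, logExpansion_periodic H]
  have hψc : Continuous ψ := isCover_proj.continuous_of_lift
    (continuous_logExpansion (H.smooth_lift.1.of_le (by simp)) H.splitting) hψp
  have hlift : ∀ n x, proj (F^[n] x) = f^[n] (proj x) := fun n x => iterate_semi H.smooth_lift.2 n x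
  have hgf : (⇑(f ^ m) : Torus → Torus) = f^[m] := by
    funext y
    rw [← zpow_natCast, zpow_nat_apply]
  obtain ⟨δ, C, hE⟩ := isExp_of_isHyp (g := ⇑(f ^ m)) (ψ' := fun x => bs f ψ x m) hG isCover_proj
    (fun a => by rw [hgf]; exact hlift m a)
    (fun a => by
      unfold bs
      apply Finset.sum_congr rfl
      intro i _
      rw [← hlift, hψp])
  obtain ⟨N, C₁, hN, hC₁, hor⟩ := horseshoes (volume : Measure Torus) f H.area ψ hψc half
    (by norm_num) half_dist m hm hE
  obtain ⟨S, hS⟩ : ∃ S, ∀ x, |ψ x| ≤ S := by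
    obtain ⟨S, hS⟩ := (isCompact_univ.image (hψc.abs)).isBounded.bddAbove
    exact ⟨S, fun x => hS ⟨x, trivial, rfl⟩⟩
  exact not_cand hψc.measurable hS hh hN hC₁ hor

/-- The two-torus carries Anosov automorphisms, and for each of them there is a function satisfying
all the stated conditions which is not the pressure function of the geometric potential of any
smooth area-preserving Anosov diffeomorphism homotopic to it. -/
theorem result : (∃ L l, IsHyperbolicMatrix L l) ∧
    ∀ L l, IsHyperbolicMatrix L l → ∃ p : ℝ → ℝ, IsCandidate (Real.log ‖l‖) p ∧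
      ∀ (f : Torus ≃ₜ Torus) (F : Plane → Plane) (P : Plane → Plane →L[ℝ] Plane),
        IsAreaPreservingAnosov L f F P →
        ¬ ∀ t : ℝ, pressure f (geometricPotential F P t) = ((p t : ℝ) : EReal) := by
  refine ⟨⟨_, isHyperbolicMatrix_cat⟩, ?_⟩
  intro L l hL
  have hh : 0 < Real.log ‖l‖ := Real.log_pos hL.one_lt
  exact ⟨cand (Real.log ‖l‖), isCandidate_cand hh, fun f F P H => not_pressure hh H⟩

end Pool.Agent.Results.MP_80da8f_an.NotPressureFunction
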